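import Pool.Agent.Lib_helper2.EFD.Defs

namespace Pool.Agent.EFD
open Pool.Agent.PTm Pool.Agent.EFX3

/-- the nine weights -/
def cb_key (K : Fin 3 → List Unit) (P : Part) : Fin 3 → Fin 3 → ℕ := fun i j => wsum K i (P j)

theorem cb_eqn (a b : ℕ) : eqn a b = true ↔ a = b := by
  unfold eqn
  rw [Bool.and_eq_true, decide_eq_true_iff, decide_eq_true_iff]
  omega

theorem cb_same1 (K : Fin 3 → List Unit) (i : Fin 3) (P Q : Part) :
    same1 K i P Q = true ↔ ∀ j, wsum K i (P j) = wsum K i (Q j) := by
  unfold same1
  rw [Bool.and_eq_true, Bool.and_eq_true, cb_eqn, cb_eqn, cb_eqn, Fin.forall_fin_succ,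
    Fin.forall_fin_succ, Fin.forall_fin_succ]
  constructor
  · rintro ⟨h1, h2, h3⟩
    exact ⟨h1, h2, h3, fun i => i.elim0⟩
  · rintro ⟨h1, h2, h3, -⟩
    exact ⟨h1, h2, h3⟩

theorem cb_same (K : Fin 3 → List Unit) (P Q : Part) :
    same K P Q = true ↔ cb_key K P = cb_key K Q := by
  unfold same
  rw [Bool.and_eq_true, Bool.and_eq_true, cb_same1, cb_same1, cb_same1]
  constructor
  · rintro ⟨h1, h2, h3⟩
    funext i j
    fin_cases i
    · exact h1 j
    · exact h2 j
    · exact h3 j
  · intro h
    exact ⟨fun j => congrFun (congrFun h 0) j, fun j => congrFun (congrFun h 1) j,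
      fun j => congrFun (congrFun h 2) j⟩

theorem cb_all (K : Fin 3 → List Unit) (L : List Part) (P : Part) :
    (L.all fun Q => !same K P Q) = true ↔ cb_key K P ∉ L.map (cb_key K) := by
  rw [List.all_eq_true, List.mem_map]
  constructor
  · rintro h ⟨Q, hQ, hk⟩
    have h1 := h Q hQ
    rw [Bool.not_eq_true'] at h1
    have h2 := (cb_same K P Q).2 hk.symm
    rw [h1] at h2
    exact Bool.false_ne_true h2
  · intro h Q hQ
    rw [Bool.not_eq_true']
    by_contra h1
    rw [Bool.not_eq_false] at h1
    exact h ⟨Q, hQ, ((cb_same K P Q).1 h1).symm⟩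

theorem cb_add_sub (K : Fin 3 → List Unit) (L : List Part) (P : Part) : L ⊆ addNew K L P := by
  unfold addNew
  split_ifs
  · exact List.subset_cons_self _ _
  · exact List.Subset.refl _

theorem cb_add_mem (K : Fin 3 → List Unit) (L : List Part) (P X : Part)
    (h : X ∈ addNew K L P) : X = P ∨ X ∈ L := by
  unfold addNew at h
  split_ifs at h
  · exact List.mem_cons.1 h
  · exact Or.inr h

theorem cb_add_key (K : Fin 3 → List Unit) (L : List Part) (P : Part) :
    ∃ Q ∈ addNew K L P, cb_key K Q = cb_key K P := by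
  unfold addNew
  split_ifs with h
  · exact ⟨P, List.mem_cons_self, rfl⟩
  · rw [cb_all, not_not, List.mem_map] at h
    exact h

theorem cb_add_nodup (K : Fin 3 → List Unit) (L : List Part) (P : Part)
    (h : (L.map (cb_key K)).Nodup) : ((addNew K L P).map (cb_key K)).Nodup := by
  unfold addNew
  split_ifs with h1
  · rw [List.map_cons, List.nodup_cons]
    exact ⟨(cb_all K L P).1 h1, h⟩
  · exact h

/-- one step of `expand` -/
def cb_F (K : Fin 3 → List Unit) (g : Good) (M : List Part) (P : Part) : List Part :=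
  addNew K (addNew K (addNew K M (put P 0 g)) (put P 1 g)) (put P 2 g)

theorem cb_F_sub (K : Fin 3 → List Unit) (g : Good) (M : List Part) (P : Part) :
    M ⊆ cb_F K g M P :=
  List.Subset.trans (cb_add_sub K M (put P 0 g))
    (List.Subset.trans (cb_add_sub K _ (put P 1 g)) (cb_add_sub K _ (put P 2 g)))

theorem cb_F_mem (K : Fin 3 → List Unit) (g : Good) (M : List Part) (P X : Part)
    (h : X ∈ cb_F K g M P) : X ∈ M ∨ ∃ j, X = put P j g := by
  rcases cb_add_mem K _ _ X h with h | h
  · exact Or.inr ⟨2, h⟩
  rcases cb_add_mem K _ _ X h with h | h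
  · exact Or.inr ⟨1, h⟩
  rcases cb_add_mem K _ _ X h with h | h
  · exact Or.inr ⟨0, h⟩
  · exact Or.inl h

theorem cb_F_key (K : Fin 3 → List Unit) (g : Good) (M : List Part) (P : Part) (j : Fin 3) :
    ∃ Q ∈ cb_F K g M P, cb_key K Q = cb_key K (put P j g) := by
  unfold cb_F
  fin_cases j
  · obtain ⟨Q, hQ, hk⟩ := cb_add_key K M (put P 0 g)
    exact ⟨Q, cb_add_sub K _ _ (cb_add_sub K _ _ hQ), hk⟩
  · obtain ⟨Q, hQ, hk⟩ := cb_add_key K (addNew K M (put P 0 g)) (put P 1 g)
    exact ⟨Q, cb_add_sub K _ _ hQ, hk⟩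
  · obtain ⟨Q, hQ, hk⟩ := cb_add_key K (addNew K (addNew K M (put P 0 g)) (put P 1 g)) (put P 2 g)
    exact ⟨Q, hQ, hk⟩

theorem cb_F_nodup (K : Fin 3 → List Unit) (g : Good) (M : List Part) (P : Part)
    (h : (M.map (cb_key K)).Nodup) : ((cb_F K g M P).map (cb_key K)).Nodup :=
  cb_add_nodup K _ _ (cb_add_nodup K _ _ (cb_add_nodup K _ _ h))

theorem cb_expand (K : Fin 3 → List Unit) (g : Good) (L : List Part) :
    expand K g L = L.foldl (cb_F K g) [] := rfl

theorem cb_fold (K : Fin 3 → List Unit) (g : Good) (L : List Part) : ∀ M : List Part,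
    M ⊆ L.foldl (cb_F K g) M ∧
    (∀ X ∈ L.foldl (cb_F K g) M, X ∈ M ∨ ∃ P ∈ L, ∃ j, X = put P j g) ∧
    (∀ P ∈ L, ∀ j, ∃ Q ∈ L.foldl (cb_F K g) M, cb_key K Q = cb_key K (put P j g)) ∧
    ((M.map (cb_key K)).Nodup → ((L.foldl (cb_F K g) M).map (cb_key K)).Nodup) := by
  induction L with
  | nil =>
    intro M
    exact ⟨List.Subset.refl _, fun X hX => Or.inl hX, fun P hP => absurd hP List.not_mem_nil,
      fun h => h⟩
  | cons P L ih =>
    intro M
    rw [List.foldl_cons]
    obtain ⟨h1, h2, h3, h4⟩ := ih (cb_F K g M P)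
    refine ⟨List.Subset.trans (cb_F_sub K g M P) h1, fun X hX => ?_, fun P' hP' j => ?_,
      fun h => h4 (cb_F_nodup K g M P h)⟩
    · rcases h2 X hX with h | ⟨P', hP', j, hj⟩
      · rcases cb_F_mem K g M P X h with h | ⟨j, hj⟩
        · exact Or.inl h
        · exact Or.inr ⟨P, List.mem_cons_self, j, hj⟩
      · exact Or.inr ⟨P', List.mem_cons_of_mem _ hP', j, hj⟩
    · rcases List.mem_cons.1 hP' with rfl | hP'
      · obtain ⟨Q, hQ, hk⟩ := cb_F_key K g M P' j
        exact ⟨Q, h1 hQ, hk⟩
      · exact h3 P' hP' j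

theorem cb_put_perm (P : Part) (j : Fin 3) (g : Good) :
    (put P j g 0 ++ put P j g 1 ++ put P j g 2).Perm (g :: (P 0 ++ P 1 ++ P 2)) := by
  unfold put
  fin_cases j
  · simp
  · simp only [Fin.mk_one, Fin.isValue, ne_eq, zero_ne_one, not_false_eq_true,
      Function.update_of_ne, Function.update_self, Fin.reduceEq, List.append_assoc,
      List.cons_append]
    exact List.perm_middle
  · simp only [Fin.reduceFinMk, Fin.isValue, ne_eq, Fin.reduceEq, not_false_eq_true,
      Function.update_of_ne, Function.update_self]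
    exact List.perm_middle

theorem cb_perm (K : Fin 3 → List Unit) (N : List Good) : ∀ (L : List Part) (N0 : List Good),
    (∀ P ∈ L, (P 0 ++ P 1 ++ P 2).Perm N0) →
    ∀ P ∈ N.foldl (fun L g => expand K g L) L, (P 0 ++ P 1 ++ P 2).Perm (N0 ++ N) := by
  induction N with
  | nil =>
    intro L N0 h P hP
    rw [List.append_nil]
    exact h P hP
  | cons g N ih =>
    intro L N0 h P hP
    rw [List.foldl_cons] at hP
    have h1 := ih (expand K g L) (N0 ++ [g]) (fun X hX => by
      rw [cb_expand] at hX
      rcases (cb_fold K g L []).2.1 X hX with h2 | ⟨P', hP', j, rfl⟩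
      · exact absurd h2 List.not_mem_nil
      · exact (cb_put_perm P' j g).trans (((h P' hP').cons g).trans
          (List.perm_append_singleton g N0).symm)) P hP
    rwa [List.append_assoc N0 [g] N, List.singleton_append] at h1

/-- every triple of `reps K N` is a partition of `N` -/
theorem reps_perm_pr {K : Fin 3 → List Unit} {N : List Good} {P : Part} (h : P ∈ reps K N) :
    (P 0 ++ P 1 ++ P 2).Perm N := by
  have h1 := cb_perm K N [fun _ => []] [] (fun P hP => by
    rw [List.mem_singleton] at hP
    subst hP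
    exact List.Perm.refl _) P h
  rwa [List.nil_append] at h1

theorem cb_put_key (K : Fin 3 → List Unit) (P : Part) (k : Fin 3) (g : Good) (i j : Fin 3) :
    wsum K i (put P k g j) = wsum K i (P j) + if k = j then wt K i g else 0 := by
  unfold put
  by_cases h : k = j
  · subst h
    rw [Function.update_self, if_pos rfl]
    unfold wsum
    rw [List.map_cons, List.sum_cons, add_comm]
  · rw [Function.update_of_ne (Ne.symm h), if_neg h, add_zero]

theorem cb_filter (K : Fin 3 → List Unit) (N : List Good) (g : Good) (σ : Good → Fin 3)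
    (i j : Fin 3) :
    wsum K i ((N ++ [g]).filter fun g => decide (σ g = j)) =
      wsum K i (N.filter fun g => decide (σ g = j)) + if σ g = j then wt K i g else 0 := by
  unfold wsum
  rw [List.filter_append, List.map_append, List.sum_append]
  congr 1
  by_cases h : σ g = j
  · rw [List.filter_cons_of_pos (by simpa using h), List.filter_nil, if_pos h]
    simp
  · rw [List.filter_cons_of_neg (by simpa using h), List.filter_nil, if_neg h]
    simp

theorem cb_complete (K : Fin 3 → List Unit) (σ : Good → Fin 3) (N : List Good) :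
    ∀ (L : List Part) (N0 : List Good),
    (∃ P ∈ L, ∀ i j, wsum K i (P j) = wsum K i (N0.filter fun g => decide (σ g = j))) →
    ∃ P ∈ N.foldl (fun L g => expand K g L) L,
      ∀ i j, wsum K i (P j) = wsum K i ((N0 ++ N).filter fun g => decide (σ g = j)) := by
  induction N with
  | nil =>
    intro L N0 h
    rw [List.append_nil]
    exact h
  | cons g N ih =>
    rintro L N0 ⟨P, hP, hk⟩
    rw [List.foldl_cons]
    have h1 := ih (expand K g L) (N0 ++ [g]) (by
      obtain ⟨Q, hQ, hQk⟩ := (cb_fold K g L []).2.2.1 P hP (σ g)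
      refine ⟨Q, hQ, fun i j => ?_⟩
      have h2 : wsum K i (Q j) = wsum K i (put P (σ g) g j) := congrFun (congrFun hQk i) j
      rw [h2, cb_put_key, cb_filter, hk])
    rwa [List.append_assoc, List.singleton_append] at h1

/-- every assignment of the goods of `N` has a representative with the same weights -/
theorem reps_complete_pr (K : Fin 3 → List Unit) (N : List Good) (σ : Good → Fin 3) :
    ∃ P ∈ reps K N, ∀ i j, wsum K i (P j) = wsum K i (N.filter fun g => decide (σ g = j)) := by
  have h1 := cb_complete K σ N [fun _ => []] [] ⟨fun _ => [], List.mem_singleton_self _,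
    fun i j => by rw [List.filter_nil]⟩
  rwa [List.nil_append] at h1

theorem cb_nodup (K : Fin 3 → List Unit) (N : List Good) : ∀ L : List Part,
    (L.map (cb_key K)).Nodup →
    ((N.foldl (fun L g => expand K g L) L).map (cb_key K)).Nodup := by
  induction N with
  | nil => exact fun L h => h
  | cons g N ih =>
    intro L _
    rw [List.foldl_cons]
    exact ih _ ((cb_fold K g L []).2.2.2 List.nodup_nil)

theorem cb_wsum_le (K : Fin 3 → List Unit) (i : Fin 3) (B : ℕ) (X : List Good)
    (h : ∀ g ∈ X, wt K i g ≤ B) : wsum K i X ≤ X.length * B := by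
  induction X with
  | nil => simp [wsum]
  | cons g X ih =>
    have h1 := ih fun g hg => h g (List.mem_cons_of_mem _ hg)
    have h2 := h g List.mem_cons_self
    unfold wsum at h1 ⊢
    rw [List.map_cons, List.sum_cons, List.length_cons, add_mul, one_mul]
    omega

/-- the number of representatives is polynomial -/
theorem reps_length_pr (K : Fin 3 → List Unit) (N : List Good) (B : ℕ)
    (hB : ∀ g ∈ N, ∀ i, wt K i g ≤ B) : (reps K N).length ≤ (N.length * B + 1) ^ 9 := by
  classical
  have hnd : ((reps K N).map (cb_key K)).Nodup :=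
    cb_nodup K N [fun _ => []] (List.nodup_singleton _)
  have h1 : ((reps K N).map (cb_key K)).toFinset ⊆
      Fintype.piFinset (fun _ : Fin 3 => Fintype.piFinset (fun _ : Fin 3 =>
        Finset.range (N.length * B + 1))) := by
    intro f hf
    rw [List.mem_toFinset, List.mem_map] at hf
    obtain ⟨P, hP, rfl⟩ := hf
    have hperm := reps_perm_pr hP
    have hlen := hperm.length_eq
    rw [List.length_append, List.length_append] at hlen
    rw [Fintype.mem_piFinset]
    intro i
    rw [Fintype.mem_piFinset]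
    intro j
    rw [Finset.mem_range, Nat.lt_succ_iff]
    have h2 : (P j).length ≤ N.length ∧ ∀ g ∈ P j, g ∈ N := by
      fin_cases j
      · refine ⟨by show (P 0).length ≤ _; omega, fun g hg => hperm.subset ?_⟩
        exact List.mem_append_left _ (List.mem_append_left _ hg)
      · refine ⟨by show (P 1).length ≤ _; omega, fun g hg => hperm.subset ?_⟩
        exact List.mem_append_left _ (List.mem_append_right _ hg)
      · refine ⟨by show (P 2).length ≤ _; omega, fun g hg => hperm.subset ?_⟩
        exact List.mem_append_right _ hg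
    exact (cb_wsum_le K i B (P j) fun g hg => hB g (h2.2 g hg) i).trans
      (Nat.mul_le_mul_right B h2.1)
  have h2 := Finset.card_le_card h1
  rw [List.toFinset_card_of_nodup hnd, List.length_map, Fintype.card_piFinset,
    Finset.prod_const, Fintype.card_piFinset, Finset.prod_const, Finset.card_range,
    Finset.card_univ, Fintype.card_fin, ← pow_mul] at h2
  exact h2

end Pool.Agent.EFD
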