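import Pool.Agent.Lib_helper2.EFD.Defs

namespace Pool.Agent.EFD
open Pool.Agent.PTm Pool.Agent.EFX3

variable {γ : Type} [ToD γ]

theorem pa_hlv0 : PTime (fun p : List Unit × ℕ => hlv p.1 p.2) := by
  refine PTime.foldl_add (γ := List Unit × ℕ) (α := Unit) (β := ℕ)
    (l := fun p => p.1) (i := fun p => p.2) (s := fun _ y _ => y.div2)
    pt_fst pt_snd ?_ 1 ?_
  · exact PTime.div2 (PTime.fst pt_snd)
  · intro x b g _
    have h := num_sz_div2 b
    simp only [Polynomial.eval_one]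
    omega

theorem pt_hlv_pr {k : γ → List Unit} {x : γ → ℕ} (hk : PTime k) (hx : PTime x) :
    PTime (fun c => hlv (k c) (x c)) := PTime.comp pa_hlv0 (PTime.pair hk hx)

theorem pt_wsum_pr (i : Fin 3) {K : γ → Fin 3 → List Unit} {X : γ → List Good} (hK : PTime K)
    (hX : PTime X) : PTime (fun c => wsum (K c) i (X c)) :=
  PTime.sum (γ := γ) (α := Good) (l := X) (f := fun c g => wt (K c) i g) hX
    (pt_hlv_pr (PTime.app (PTime.comp hK pt_fst) (PTime.const i)) (PTime.comp (pt_wgt i) pt_snd))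

theorem pa_eqn {x y : γ → ℕ} (hx : PTime x) (hy : PTime y) : PTime (fun c => eqn (x c) (y c)) :=
  PTime.and (PTime.nat_le hx hy) (PTime.nat_le hy hx)

theorem pa_same1 (i : Fin 3) {K : γ → Fin 3 → List Unit} {P Q : γ → Part} (hK : PTime K)
    (hP : PTime P) (hQ : PTime Q) : PTime (fun c => same1 (K c) i (P c) (Q c)) :=
  PTime.and (pa_eqn (pt_wsum_pr i hK (pt_appc hP 0)) (pt_wsum_pr i hK (pt_appc hQ 0)))
    (PTime.and (pa_eqn (pt_wsum_pr i hK (pt_appc hP 1)) (pt_wsum_pr i hK (pt_appc hQ 1)))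
      (pa_eqn (pt_wsum_pr i hK (pt_appc hP 2)) (pt_wsum_pr i hK (pt_appc hQ 2))))

theorem pt_same_pr {K : γ → Fin 3 → List Unit} {P Q : γ → Part} (hK : PTime K) (hP : PTime P)
    (hQ : PTime Q) : PTime (fun c => same (K c) (P c) (Q c)) :=
  PTime.and (pa_same1 0 hK hP hQ) (PTime.and (pa_same1 1 hK hP hQ) (pa_same1 2 hK hP hQ))

end Pool.Agent.EFD
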